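import Pool.Agent.Helper30.SY.St

/-!
# Project SY (MP_2d701a_co), module CON: concentration of the weighted degree of a pair
-/

set_option autoImplicit false

namespace Pool.Agent.Helper48.SY

open Finset Pool.Agent.Helper30.SY Pool.Agent.Helper93.IA

private theorem co_eq {n : ℕ} {a b c d : Fin n} (h : co a b = co c d) :
    (a = c ∧ b = d) ∨ (a = d ∧ b = c) := by
  unfold co at h
  split_ifs at h <;> rw [Prod.mk.injEq] at h
  · exact Or.inl h
  · exact Or.inr h
  · exact Or.inr ⟨h.2, h.1⟩
  · exact Or.inl ⟨h.2, h.1⟩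

private theorem iv01 (z : ℤ) (u : Sta) (τ : Fin 3) : 0 ≤ iv z u τ ∧ iv z u τ ≤ 1 := by
  unfold iv
  split_ifs <;> norm_num

private theorem ms01 {n : ℕ} (s : Fin n → Fin n → ℤ) (σ : Fin n × Fin n → Sta) (τ : Fin 3)
    (a b : Fin n) : 0 ≤ ms s σ τ a b ∧ ms s σ τ a b ≤ 1 := by
  unfold ms
  split_ifs
  · norm_num
  · exact iv01 _ _ _

private theorem ms_upd {n : ℕ} (s : Fin n → Fin n → ℤ) (σ : Fin n × Fin n → Sta) (τ : Fin 3)
    (a b : Fin n) {p : Fin n × Fin n} (u u' : Sta) (h : co a b ≠ p) :
    ms s (Function.update σ p u) τ a b = ms s (Function.update σ p u') τ a b := by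
  unfold ms
  rw [Function.update_of_ne h, Function.update_of_ne h]

/-- the relevant coordinates -/
private def RR {n : ℕ} (x y : Fin n) : Finset (Fin n × Fin n) :=
  univ.image (fun c => co y c) ∪ univ.image (fun c => co c x)

private theorem RR_card {n : ℕ} (x y : Fin n) : ((RR x y).card : ℝ) ≤ 2 * n := by
  have h1 : (RR x y).card ≤ n + n := by
    refine (card_union_le _ _).trans (Nat.add_le_add ?_ ?_)
    · refine card_image_le.trans ?_
      rw [card_univ, Fintype.card_fin]
    · refine card_image_le.trans ?_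
      rw [card_univ, Fintype.card_fin]
  have h2 : ((RR x y).card : ℝ) ≤ ((n + n : ℕ) : ℝ) := by exact_mod_cast h1
  rw [Nat.cast_add] at h2
  linarith

private theorem osc {n : ℕ} (s : Fin n → Fin n → ℤ) (x y : Fin n) (g : Fin n → ℝ) (τ τ' : Fin 3)
    (K : ℝ) (hK : 0 ≤ K) (hxy : x ≠ y) (hg : ∀ c, |g c| ≤ K) (hgx : g x = 0) (hgy : g y = 0)
    (σ : Fin n × Fin n → Sta) (p : Fin n × Fin n) (u u' : Sta) :
    |(∑ c, g c * (ms s (Function.update σ p u) τ y c * ms s (Function.update σ p u) τ' c x)) -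
      ∑ c, g c * (ms s (Function.update σ p u') τ y c * ms s (Function.update σ p u') τ' c x)| ≤
      if p ∈ RR x y then K else 0 := by
  rw [← sum_sub_distrib]
  by_cases hex : ∃ c0 : Fin n, c0 ≠ x ∧ c0 ≠ y ∧ (co y c0 = p ∨ co c0 x = p)
  · obtain ⟨c0, h1, h2, h3⟩ := hex
    have hp : p ∈ RR x y := by
      unfold RR
      rw [mem_union, mem_image, mem_image]
      rcases h3 with h | h
      · exact Or.inl ⟨c0, mem_univ _, h⟩
      · exact Or.inr ⟨c0, mem_univ _, h⟩
    rw [if_pos hp, sum_eq_single c0]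
    · rw [← mul_sub, abs_mul]
      have a1 := ms01 s (Function.update σ p u) τ y c0
      have a2 := ms01 s (Function.update σ p u) τ' c0 x
      have a3 := ms01 s (Function.update σ p u') τ y c0
      have a4 := ms01 s (Function.update σ p u') τ' c0 x
      have b1 := mul_nonneg a1.1 a2.1
      have b2 := mul_nonneg a3.1 a4.1
      have b3 := mul_le_one₀ a1.2 a2.1 a2.2
      have b4 := mul_le_one₀ a3.2 a4.1 a4.2
      have h5 : |ms s (Function.update σ p u) τ y c0 * ms s (Function.update σ p u) τ' c0 x -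
          ms s (Function.update σ p u') τ y c0 * ms s (Function.update σ p u') τ' c0 x| ≤ 1 := by
        rw [abs_le]
        constructor <;> linarith
      calc |g c0| * |ms s (Function.update σ p u) τ y c0 * ms s (Function.update σ p u) τ' c0 x -
          ms s (Function.update σ p u') τ y c0 * ms s (Function.update σ p u') τ' c0 x| ≤ K * 1 :=
            mul_le_mul (hg c0) h5 (abs_nonneg _) hK
        _ = K := mul_one K
    · intro c _ hc
      by_cases hcx : c = x
      · rw [hcx, hgx]; ring
      by_cases hcy : c = y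
      · rw [hcy, hgy]; ring
      have n1 : co y c ≠ p := by
        intro h
        rcases h3 with h' | h'
        · rcases co_eq (h.trans h'.symm) with ⟨_, k⟩ | ⟨_, k⟩
          · exact hc k
          · exact hcy k
        · rcases co_eq (h.trans h'.symm) with ⟨_, k⟩ | ⟨k, _⟩
          · exact hcx k
          · exact hxy k.symm
      have n2 : co c x ≠ p := by
        intro h
        rcases h3 with h' | h'
        · rcases co_eq (h.trans h'.symm) with ⟨k, _⟩ | ⟨_, k⟩
          · exact hcy k
          · exact hxy k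
        · rcases co_eq (h.trans h'.symm) with ⟨k, _⟩ | ⟨k, _⟩
          · exact hc k
          · exact hcx k
      rw [ms_upd s σ τ y c u u' n1, ms_upd s σ τ' c x u u' n2, sub_self]
    · intro h
      exact absurd (mem_univ _) h
  · push Not at hex
    have h0 : ∑ c, (g c * (ms s (Function.update σ p u) τ y c * ms s (Function.update σ p u) τ' c x) -
        g c * (ms s (Function.update σ p u') τ y c * ms s (Function.update σ p u') τ' c x)) = 0 := by
      refine sum_eq_zero fun c _ => ?_
      by_cases hcx : c = x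
      · rw [hcx, hgx]; ring
      by_cases hcy : c = y
      · rw [hcy, hgy]; ring
      obtain ⟨n1, n2⟩ := hex c hcx hcy
      rw [ms_upd s σ τ y c u u' n1, ms_upd s σ τ' c x u u' n2, sub_self]
    rw [h0, abs_zero]
    split_ifs
    · exact hK
    · exact le_refl _

/-- CON. -/
theorem hCON : StCON := by
  intro hB G η hG hη
  obtain ⟨lam, hlam⟩ : ∃ lam : ℝ, lam = min (1 / G) (η / (4 * G ^ 2)) := ⟨_, rfl⟩
  have l0 : 0 < lam := by
    rw [hlam]
    exact lt_min (by positivity) (by positivity)
  have l1 : lam * G ≤ 1 := by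
    have h : lam ≤ 1 / G := by rw [hlam]; exact min_le_left _ _
    rwa [le_div_iff₀ hG] at h
  have l2 : lam * (4 * G ^ 2) ≤ η := by
    have h : lam ≤ η / (4 * G ^ 2) := by rw [hlam]; exact min_le_right _ _
    rwa [le_div_iff₀ (by positivity)] at h
  obtain ⟨κ, hκ⟩ : ∃ κ : ℝ, κ = lam * η / 2 := ⟨_, rfl⟩
  have k0 : 0 < κ := by rw [hκ]; positivity
  refine ⟨⌈120 / κ ^ 3⌉₊ + 1, ?_⟩
  intro n hn s w x y g τ τ' hw hw1 hxy hg hgx hgy
  have hn1 : 1 ≤ n := by omega
  have hnr : (0 : ℝ) < n := by exact_mod_cast hn1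
  have hn2 : 120 / κ ^ 3 ≤ (n : ℝ) := by
    have h1 := Nat.le_ceil (120 / κ ^ 3)
    have h2 : ((⌈120 / κ ^ 3⌉₊ : ℕ) : ℝ) ≤ (n : ℝ) := by exact_mod_cast (by omega : ⌈120 / κ ^ 3⌉₊ ≤ n)
    linarith
  have hGn : 0 ≤ G / n := by positivity
  have hosc := osc s x y g τ τ' (G / n) hGn hxy hg hgx hgy
  have key := hB (Fin n × Fin n) (fun _ => Sta) w
    (fun σ => ∑ c, g c * (ms s σ τ y c * ms s σ τ' c x)) (G / n) η (lam * n)
    (fun p => if p ∈ RR x y then (G / n) ^ 2 else 0) hw hw1
    (fun p σ u u' => by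
      refine (hosc σ p u u').trans ?_
      split_ifs
      · exact le_refl _
      · exact hGn)
    (fun p σ => by
      obtain ⟨u0⟩ : Nonempty Sta := inferInstance
      refine ⟨∑ c, g c * (ms s (Function.update σ p u0) τ y c * ms s (Function.update σ p u0) τ' c x), ?_⟩
      have h1 : ∀ u : Sta, ((∑ c, g c * (ms s (Function.update σ p u) τ y c * ms s (Function.update σ p u) τ' c x)) -
          ∑ c, g c * (ms s (Function.update σ p u0) τ y c * ms s (Function.update σ p u0) τ' c x)) ^ 2 ≤
          if p ∈ RR x y then (G / n) ^ 2 else 0 := by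
        intro u
        have h2 := hosc σ p u u0
        rw [← sq_abs]
        split_ifs with hp
        · rw [if_pos hp] at h2
          exact pow_le_pow_left₀ (abs_nonneg _) h2 2
        · rw [if_neg hp] at h2
          have h3 := le_antisymm h2 (abs_nonneg _)
          rw [h3]
          norm_num
      calc ∑ u, w p u * ((∑ c, g c * (ms s (Function.update σ p u) τ y c * ms s (Function.update σ p u) τ' c x)) -
            ∑ c, g c * (ms s (Function.update σ p u0) τ y c * ms s (Function.update σ p u0) τ' c x)) ^ 2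
          ≤ ∑ u, w p u * (if p ∈ RR x y then (G / n) ^ 2 else 0) :=
            sum_le_sum fun u _ => mul_le_mul_of_nonneg_left (h1 u) (hw p u)
        _ = if p ∈ RR x y then (G / n) ^ 2 else 0 := by rw [← sum_mul, hw1, one_mul])
    (by positivity)
    (by
      have : lam * n * (G / n) = lam * G := by field_simp
      rw [this]
      exact l1)
  refine key.trans ?_
  have hv : ∑ p : Fin n × Fin n, (if p ∈ RR x y then (G / n) ^ 2 else 0) ≤ 2 * G ^ 2 / n := by
    rw [← sum_filter, sum_const, nsmul_eq_mul]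
    have h1 : ((univ.filter (fun p => p ∈ RR x y)).card : ℝ) ≤ 2 * n := by
      have h2 : univ.filter (fun p => p ∈ RR x y) = RR x y := by
        ext p
        simp
      rw [h2]
      exact RR_card x y
    calc ((univ.filter (fun p => p ∈ RR x y)).card : ℝ) * (G / n) ^ 2 ≤ 2 * n * (G / n) ^ 2 :=
          mul_le_mul_of_nonneg_right h1 (sq_nonneg _)
      _ = 2 * G ^ 2 / n := by field_simp
  have hexp : -(lam * n) * η + (lam * n) ^ 2 * ∑ p : Fin n × Fin n, (if p ∈ RR x y then (G / n) ^ 2 else 0) ≤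
      -(κ * n) := by
    have h1 : (lam * n) ^ 2 * ∑ p : Fin n × Fin n, (if p ∈ RR x y then (G / n) ^ 2 else 0) ≤
        (lam * n) ^ 2 * (2 * G ^ 2 / n) := mul_le_mul_of_nonneg_left hv (sq_nonneg _)
    have h2 : (lam * n) ^ 2 * (2 * G ^ 2 / n) = lam * n * (lam * (4 * G ^ 2)) / 2 := by
      field_simp
      ring
    have h3 : lam * n * (lam * (4 * G ^ 2)) ≤ lam * n * η :=
      mul_le_mul_of_nonneg_left l2 (by positivity)
    rw [h2] at h1
    rw [hκ]
    linarith
  refine (Real.exp_le_exp.2 hexp).trans ?_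
  have e1 : (κ * n) ^ 3 / 6 ≤ Real.exp (κ * n) := by
    have h := Real.pow_div_factorial_le_exp (κ * n) (by positivity) 3
    have h6 : ((Nat.factorial 3 : ℕ) : ℝ) = 6 := by norm_num [Nat.factorial]
    rwa [h6] at h
  have e2 : 20 * (n : ℝ) ^ 2 ≤ (κ * n) ^ 3 / 6 := by
    rw [div_le_iff₀ (by positivity)] at hn2
    have h1 : 120 * (n : ℝ) ^ 2 ≤ (n * κ ^ 3) * n ^ 2 := mul_le_mul_of_nonneg_right hn2 (by positivity)
    have h2 : (κ * n) ^ 3 = (n * κ ^ 3) * n ^ 2 := by ring
    rw [h2]
    linarith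
  rw [Real.exp_neg, ← one_div]
  exact one_div_le_one_div_of_le (by positivity) (e2.trans e1)

end Pool.Agent.Helper48.SY
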